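import Mathlib
import Pool.Agent.H84.PiAdicCore

/-!
# The average finite pi-adic complexity is `n / 2 + O(1)`

The setting. `R` is a domain with an element `p` (the `π` of the problem) such that
`1, p, ..., p ^ (d - 1)` is a basis of `R` over `ℤ`, and
* case (i): `d = 2` and `p ^ 2 = -N`,
* case (ii): `p ^ d = N`.
Unique factorisation is not needed.

A pair `f, g` with `g` invertible modulo `p` outputs the sequence `c` of digits
`0, ..., N - 1` if `f / g = ∑ c i * p ^ i` in the `p`-adic completion of `R`, that is, if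
`f` is congruent to `g * ∑_{i < m} c i * p ^ i` modulo `p ^ m` for all `m`.
-/

namespace Pool.Agent.Results.MP_cc6759_lc.FiniteAverage

open Finset Pool.Agent.H84.PiAdic

universe u

section defs

variable {R : Type*} [CommRing R]

/-- The AFSR with the `p`-adic number `f / g` exists (`g` is invertible modulo `p`) and its output
is the sequence `c` over the digits `0, ..., N - 1`: one has `f = g * ∑ c i * p ^ i` in the `p`-adic
completion of `R`, i.e. modulo `p ^ m` for every `m`. -/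
def Outputs (N : ℕ) (p f g : R) (c : ℕ → ℕ) : Prop :=
  IsCoprime g p ∧ (∀ i, c i < N) ∧ ∀ m, p ^ m ∣ f - g * ∑ i ∈ range m, (c i : R) * p ^ i

/-- The sizes `max (φ f) (φ g)` of the AFSRs whose first `n` outputs are `a 0, ..., a (n - 1)`. -/
def sizes (N : ℕ) (p : R) (φ : R → ℝ) {n : ℕ} (a : Fin n → Fin N) : Set ℝ :=
  {s | ∃ (f g : R) (c : ℕ → ℕ), Outputs N p f g c ∧ (∀ i : Fin n, c i = a i) ∧
    s = max (φ f) (φ g)}

/-- The `p`-adic complexity of a finite sequence, the least size of an AFSR whose first `n` outputs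
are the given ones (that the infimum is attained is `isLeast_finComplexity`). -/
noncomputable def finComplexity (N : ℕ) (p : R) (φ : R → ℝ) {n : ℕ} (a : Fin n → Fin N) : ℝ :=
  sInf (sizes N p φ a)

/-- The average of the `p`-adic complexity over all `N ^ n` sequences of length `n`. -/
noncomputable def EFin (N : ℕ) (p : R) (φ : R → ℝ) (n : ℕ) : ℝ :=
  (∑ a : Fin n → Fin N, finComplexity N p φ a) / (N : ℝ) ^ n

/-- The size of an element `u + v π` in case (i): `log_N (u ^ 2 + N v ^ 2)`.  (The value at `0` is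
`0`; it plays no role, because `φ g ≥ 0` for all `g ≠ 0`.) -/
noncomputable def phiI (N : ℕ) (b : Module.Basis (Fin 2) ℤ R) (x : R) : ℝ :=
  Real.logb N ((b.repr x 0 : ℝ) ^ 2 + N * (b.repr x 1 : ℝ) ^ 2)

/-- The size of an element `∑ u_i π ^ i` in case (ii): the maximum of `d log_N |u_i| + i` over the
`i` with `u_i ≠ 0`.  (The value at `0` is `0`; it plays no role, because `φ g ≥ 0` for all
`g ≠ 0`.) -/
noncomputable def phiII (N : ℕ) {d : ℕ} (b : Module.Basis (Fin d) ℤ R) (x : R) : ℝ :=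
  ⨆ i : {i : Fin d // b.repr x i ≠ 0}, (d * Real.logb N |(b.repr x i.1 : ℝ)| + (i.1 : ℕ))

end defs

section general

variable {R : Type*} [CommRing R] [IsDomain R] {d : ℕ} (b : Module.Basis (Fin d) ℤ R)

omit [IsDomain R] in
/-- Every pair is the output of some sequence of digits. -/
lemma exists_output {N : ℕ} {p : R} (h : Digits p N) {f g : R} (hg : IsCoprime g p) :
    ∃ c : ℕ → ℕ, Outputs N p f g c := by
  obtain ⟨u, v, huv⟩ := hg
  have hstep : ∀ y : R, ∃ (k : ℕ) (y' : R), k < N ∧ y - g * k = p * y' := by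
    intro y
    obtain ⟨k, hk, z, hz⟩ := h.exists_digit (u * y)
    refine ⟨k, v * y + g * z, hk, ?_⟩
    linear_combination (-y) * huv + g * hz
  choose k y' hk hy' using hstep
  let y : ℕ → R := fun m => y'^[m] f
  have hy0 : y 0 = f := rfl
  have hys : ∀ m, y (m + 1) = y' (y m) := fun m => Function.iterate_succ_apply' _ _ _
  refine ⟨fun m => k (y m), ⟨u, v, huv⟩, fun i => hk _, ?_⟩
  intro m
  refine ⟨y m, ?_⟩
  induction m with
  | zero => simp [hy0]
  | succ m ih =>
    rw [Finset.sum_range_succ, hys, pow_succ]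
    have h1 := hy' (y m)
    linear_combination ih + p ^ m * h1

lemma exists_extension {N : ℕ} {p : R} (h : Digits p N) {n : ℕ} (a : Fin n → Fin N) {f g : R}
    (hg : IsCoprime g p) (hfg : p ^ n ∣ f - g * val p a) :
    ∃ c : ℕ → ℕ, Outputs N p f g c ∧ ∀ i : Fin n, c i = a i := by
  obtain ⟨c, hc⟩ := exists_output h (f := f) hg
  refine ⟨c, hc, ?_⟩
  let a' : Fin n → Fin N := fun i => ⟨c i, hc.2.1 i⟩
  have h1 : val p a' = ∑ i ∈ range n, (c i : R) * p ^ i :=
    Fin.sum_univ_eq_sum_range (fun i => (c i : R) * p ^ i) n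
  have h2 : p ^ n ∣ g * (val p a' - val p a) := by
    obtain ⟨z, hz⟩ := hfg
    obtain ⟨w, hw⟩ := hc.2.2 n
    refine ⟨z - w, ?_⟩
    rw [← h1] at hw
    linear_combination hz - hw
  have h3 : p ^ n ∣ val p a' - val p a := (hc.1.pow_right (n := n)).symm.dvd_of_dvd_mul_left h2
  have h4 := val_injective h n _ _ h3
  intro i
  rw [← h4]

/-- The hypotheses on a size function: it is `d log_N` of the maximum norm up to a bounded
error. -/
structure IsSize (N : ℕ) (φ : R → ℝ) (c₀ : ℝ) : Prop where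
  zero : φ 0 = 0
  nonneg : 0 ≤ c₀
  lower : ∀ x, x ≠ 0 → d * Real.logb N (nrm b x) ≤ φ x
  upper : ∀ x, x ≠ 0 → φ x ≤ d * Real.logb N (nrm b x) + c₀

variable {b} {N : ℕ} {p : R} {φ : R → ℝ} {c₀ : ℝ}

omit [IsDomain R] in
lemma IsSize.phi_nonneg (hφ : IsSize b N φ c₀) (hN : 2 ≤ N) (x : R) : 0 ≤ φ x := by
  by_cases hx : x = 0
  · rw [hx, hφ.zero]
  · refine le_trans ?_ (hφ.lower x hx)
    refine mul_nonneg (Nat.cast_nonneg _) (Real.logb_nonneg ?_ ?_)
    · exact_mod_cast (by omega : 1 < N)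
    · exact_mod_cast nrm_pos b hx

omit [IsDomain R] in
lemma IsSize.le_of_nrm_le (hφ : IsSize b N φ c₀) (hN : 2 ≤ N) {x : R} {l : ℕ}
    (hx : nrm b x ≤ N ^ l) : φ x ≤ d * l + c₀ := by
  by_cases hx0 : x = 0
  · rw [hx0, hφ.zero]
    have := hφ.nonneg
    positivity
  · refine (hφ.upper x hx0).trans ?_
    have h1 : Real.logb N (nrm b x) ≤ l := by
      have h2 : (0 : ℝ) < nrm b x := by exact_mod_cast nrm_pos b hx0
      rw [Real.logb_le_iff_le_rpow (by exact_mod_cast (by omega : 1 < N)) h2, Real.rpow_natCast]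
      exact_mod_cast hx
    have := mul_le_mul_of_nonneg_left h1 (Nat.cast_nonneg (α := ℝ) d)
    linarith

omit [IsDomain R] in
lemma IsSize.ge_of_nrm_gt (hφ : IsSize b N φ c₀) (hN : 2 ≤ N) {x : R} {l : ℕ}
    (hx : N ^ l < nrm b x) : (d * l : ℝ) ≤ φ x := by
  have hx0 : x ≠ 0 := by
    rintro rfl
    rw [nrm_zero] at hx
    omega
  refine le_trans ?_ (hφ.lower x hx0)
  refine mul_le_mul_of_nonneg_left ?_ (Nat.cast_nonneg _)
  have h2 : (0 : ℝ) < nrm b x := by exact_mod_cast nrm_pos b hx0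
  rw [Real.le_logb_iff_rpow_le (by exact_mod_cast (by omega : 1 < N)) h2, Real.rpow_natCast]
  exact_mod_cast hx.le

omit [IsDomain R] in
lemma sizes_bddBelow (hφ : IsSize b N φ c₀) (hN : 2 ≤ N) {n : ℕ} (a : Fin n → Fin N) :
    ∀ s ∈ sizes N p φ a, 0 ≤ s := by
  rintro s ⟨f, g, c, -, -, rfl⟩
  exact (hφ.phi_nonneg hN f).trans (le_max_left _ _)

lemma exists_size_le (hd : 1 ≤ d) (hφ : IsSize b N φ c₀) (h : Digits p N) {n : ℕ}
    (a : Fin n → Fin N) :
    ∃ s ∈ sizes N p φ a, s ≤ d * (lev b p n N (digitsEquiv h n a) : ℝ) + c₀ := by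
  obtain ⟨f, hf, g, hg, hgp, hag⟩ := (sum_lev_le b hd h).1 n (digitsEquiv h n a)
  have h1 : p ^ n ∣ f - g * val p a := by
    rw [digitsEquiv_apply, ← map_mul] at hag
    have h2 := (Ideal.Quotient.eq.1 hag.symm)
    rw [Ideal.mem_span_singleton] at h2
    rwa [mul_comm (val p a)] at h2
  obtain ⟨c, hc, hca⟩ := exists_extension h a hgp h1
  refine ⟨_, ⟨f, g, c, hc, hca, rfl⟩, max_le ?_ ?_⟩
  · exact hφ.le_of_nrm_le h.two_le ((mem_box b).1 hf)
  · exact hφ.le_of_nrm_le h.two_le ((mem_box b).1 hg)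

lemma size_ge (hφ : IsSize b N φ c₀) (h : Digits p N) {n : ℕ}
    (a : Fin n → Fin N) {s : ℝ} (hs : s ∈ sizes N p φ a) :
    d * (lev b p n N (digitsEquiv h n a) : ℝ) - d ≤ s := by
  obtain ⟨f, g, c, hc, hca, rfl⟩ := hs
  rcases Nat.eq_zero_or_pos (lev b p n N (digitsEquiv h n a)) with h0 | hpos
  · rw [h0]
    have h1 := (hφ.phi_nonneg h.two_le f).trans (le_max_left (φ f) (φ g))
    have h2 : (0 : ℝ) ≤ d := Nat.cast_nonneg _
    simp only [Nat.cast_zero, mul_zero]
    linarith
  · obtain ⟨l, hl⟩ : ∃ l, lev b p n N (digitsEquiv h n a) = l + 1 :=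
      ⟨lev b p n N (digitsEquiv h n a) - 1, by omega⟩
    have hsum : ∑ i ∈ range n, (c i : R) * p ^ i = val p a := by
      rw [← Fin.sum_univ_eq_sum_range (fun i => (c i : R) * p ^ i) n]
      unfold Pool.Agent.H84.PiAdic.val
      exact Finset.sum_congr rfl fun i _ => by rw [hca i]
    have hdvd := hc.2.2 n
    rw [hsum] at hdvd
    have hnot : ¬ Adm b p n (N ^ l) (digitsEquiv h n a) := by
      intro hadm
      have := lev_le b hadm
      omega
    have h3 : N ^ l < nrm b f ∨ N ^ l < nrm b g := by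
      by_contra hcon
      push Not at hcon
      apply hnot
      refine ⟨f, (mem_box b).2 hcon.1, g, (mem_box b).2 hcon.2, hc.1, ?_⟩
      rw [digitsEquiv_apply, ← map_mul]
      symm
      rw [Ideal.Quotient.eq, Ideal.mem_span_singleton, mul_comm (val p a)]
      exact hdvd
    rw [hl]
    push_cast
    have h4 : (d : ℝ) * (l + 1) - d = d * l := by ring
    rw [h4]
    rcases h3 with h3 | h3
    · exact (hφ.ge_of_nrm_gt h.two_le h3).trans (le_max_left _ _)
    · exact (hφ.ge_of_nrm_gt h.two_le h3).trans (le_max_right _ _)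

/-- The infimum in the definition of the complexity of a finite sequence is a minimum. -/
theorem isLeast_finComplexity (hd : 1 ≤ d) (hφ : IsSize b N φ c₀) (h : Digits p N) {n : ℕ}
    (a : Fin n → Fin N) : IsLeast (sizes N p φ a) (finComplexity N p φ a) := by
  obtain ⟨s₀, hs₀, -⟩ := exists_size_le hd hφ h a
  -- the sizes up to `s₀` form a finite set
  have hfin : (sizes N p φ a ∩ Set.Iic s₀).Finite := by
    obtain ⟨l, hl⟩ := exists_nat_gt s₀
    have hsub : sizes N p φ a ∩ Set.Iic s₀ ⊆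
        (fun z : R × R => max (φ z.1) (φ z.2)) '' ((box b (N ^ l) ×ˢ box b (N ^ l) :
          Finset (R × R)) : Set (R × R)) := by
      rintro s ⟨⟨f, g, c, hc, hca, rfl⟩, hs⟩
      have hd' : (1 : ℝ) ≤ d := by exact_mod_cast hd
      have key : ∀ x : R, φ x ≤ s₀ → nrm b x ≤ N ^ l := by
        intro x hx
        by_contra hcon
        push Not at hcon
        have h1 := hφ.ge_of_nrm_gt h.two_le hcon
        have h2 : (l : ℝ) ≤ d * l := le_mul_of_one_le_left (Nat.cast_nonneg _) hd'
        linarith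
      refine ⟨(f, g), ?_, rfl⟩
      rw [Finset.mem_coe, Finset.mem_product, mem_box, mem_box]
      exact ⟨key f ((le_max_left _ _).trans hs), key g ((le_max_right _ _).trans hs)⟩
    exact ((Finset.finite_toSet _).image _).subset hsub
  obtain ⟨s, hs, hmin⟩ := Set.exists_min_image _ id hfin ⟨s₀, hs₀, le_refl s₀⟩
  have hleast : IsLeast (sizes N p φ a) s := by
    refine ⟨hs.1, fun t ht => ?_⟩
    by_cases hts : t ≤ s₀
    · exact hmin t ⟨ht, hts⟩
    · exact le_trans hs.2 (le_of_not_ge hts)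
  have : finComplexity N p φ a = s := hleast.csInf_eq
  rw [this]
  exact hleast

/-- The general form of the result. -/
theorem average (hd : 1 ≤ d) (hφ : IsSize b N φ c₀) (h : Digits p N) :
    ∃ C : ℝ, ∀ n : ℕ, |EFin N p φ n - (n : ℝ) / 2| ≤ C := by
  classical
  obtain ⟨C, hC⟩ := (sum_lev_le b hd h).2
  refine ⟨d + c₀ + d * C + d, fun n => ?_⟩
  have hfinQ : Finite (Q p n) := Finite.of_equiv _ (digitsEquiv h n)
  let _ : Fintype (Q p n) := Fintype.ofFinite _
  have hC' := hC n
  set q := n / (2 * d) with hq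
  have hN : (0 : ℝ) < (N : ℝ) ^ n := by
    have : 0 < N := by have := h.two_le; omega
    positivity
  have hqn : 2 * d * q ≤ n := Nat.mul_div_le n (2 * d)
  have hnq : n < 2 * d * q + 2 * d := by
    have := Nat.lt_mul_div_succ n (show 0 < 2 * d by omega)
    rw [mul_add, mul_one] at this
    exact this
  have h1 : |(d : ℝ) * q - n / 2| ≤ d := by
    have h2 : (2 * d * q : ℝ) ≤ n := by exact_mod_cast hqn
    have h3 : (n : ℝ) < 2 * d * q + 2 * d := by exact_mod_cast hnq
    rw [abs_le]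
    constructor <;> linarith
  have h2 : ∀ a : Fin n → Fin N, |finComplexity N p φ a - n / 2| ≤
      (d + c₀ + d) + d * (((q - lev b p n N (digitsEquiv h n a)) +
        (lev b p n N (digitsEquiv h n a) - q) : ℕ) : ℝ) := by
    intro a
    set l := lev b p n N (digitsEquiv h n a) with hl
    obtain ⟨s, hs, hs'⟩ := exists_size_le hd hφ h a
    have h3 : finComplexity N p φ a ≤ d * l + c₀ :=
      (csInf_le ⟨0, fun t ht => sizes_bddBelow hφ h.two_le a t ht⟩ hs).trans hs'
    have h4 : (d * l - d : ℝ) ≤ finComplexity N p φ a :=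
      le_csInf ⟨s, hs⟩ fun t ht => size_ge hφ h a ht
    have h5 : |(l : ℝ) - q| = (((q - l) + (l - q) : ℕ) : ℝ) := by
      rcases le_total q l with hle | hle
      · rw [Nat.sub_eq_zero_of_le hle, zero_add, Nat.cast_sub hle, abs_of_nonneg]
        have : (q : ℝ) ≤ l := by exact_mod_cast hle
        linarith
      · rw [Nat.sub_eq_zero_of_le hle, add_zero, Nat.cast_sub hle, abs_of_nonpos]
        · ring
        · have : (l : ℝ) ≤ q := by exact_mod_cast hle
          linarith
    rw [← h5]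
    have hc := hφ.nonneg
    have hd0 : (0 : ℝ) ≤ d := Nat.cast_nonneg _
    have h6 : |finComplexity N p φ a - d * l| ≤ d + c₀ := by
      rw [abs_le]
      constructor <;> linarith
    have h7 : |(d : ℝ) * l - d * q| = d * |(l : ℝ) - q| := by
      rw [← mul_sub, abs_mul, abs_of_nonneg hd0]
    have h8 : finComplexity N p φ a - n / 2 =
        (finComplexity N p φ a - d * l) + ((d * l - d * q) + (d * q - n / 2)) := by ring
    rw [h8]
    refine (abs_add_le _ _).trans ?_
    have h9 := abs_add_le ((d : ℝ) * l - d * q) (d * q - n / 2)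
    linarith
  have h3 : EFin N p φ n - (n : ℝ) / 2 =
      (∑ a : Fin n → Fin N, (finComplexity N p φ a - n / 2)) / (N : ℝ) ^ n := by
    unfold EFin
    rw [Finset.sum_sub_distrib, Finset.sum_const, Finset.card_univ, Fintype.card_fun,
      Fintype.card_fin, Fintype.card_fin, nsmul_eq_mul, sub_div]
    push_cast
    field_simp
  rw [h3, abs_div, abs_of_pos hN, div_le_iff₀ hN]
  calc |∑ a : Fin n → Fin N, (finComplexity N p φ a - n / 2)|
      ≤ ∑ a : Fin n → Fin N, |finComplexity N p φ a - n / 2| := Finset.abs_sum_le_sum_abs _ _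
    _ ≤ ∑ a : Fin n → Fin N, ((d + c₀ + d) + d * (((q - lev b p n N (digitsEquiv h n a)) +
        (lev b p n N (digitsEquiv h n a) - q) : ℕ) : ℝ)) := Finset.sum_le_sum fun a _ => h2 a
    _ = (d + c₀ + d) * (N : ℝ) ^ n + d * ((∑ a : Fin n → Fin N,
        ((q - lev b p n N (digitsEquiv h n a)) + (lev b p n N (digitsEquiv h n a) - q)) : ℕ) :
          ℝ) := by
        rw [Finset.sum_add_distrib, Finset.sum_const, Finset.card_univ, Fintype.card_fun,
          Fintype.card_fin, Fintype.card_fin, nsmul_eq_mul, ← Finset.mul_sum]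
        push_cast
        ring
    _ = (d + c₀ + d) * (N : ℝ) ^ n + d * ((∑ a : Q p n,
        ((q - lev b p n N a) + (lev b p n N a - q)) : ℕ) : ℝ) := by
        rw [← Equiv.sum_comp (digitsEquiv h n)]
    _ ≤ (d + c₀ + d) * (N : ℝ) ^ n + d * ((C * N ^ n : ℕ) : ℝ) := by
        refine add_le_add (le_refl _) (mul_le_mul_of_nonneg_left ?_ (Nat.cast_nonneg d))
        exact_mod_cast hC'
    _ = (d + c₀ + d * C + d) * (N : ℝ) ^ n := by
        push_cast
        ring

end general

/-! ### The digits -/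

section digits

variable {R : Type*} [CommRing R] [IsDomain R] {d : ℕ} {b : Module.Basis (Fin d) ℤ R}

omit [IsDomain R] in
/-- If `1, p, ..., p ^ (d - 1)` is a basis and `p ^ d = ± N` then `0, ..., N - 1` is a complete
system of residues modulo `p`. -/
lemma digits_of_basis {N : ℕ} (hN : 2 ≤ N) {p : R} (hd : 1 ≤ d) (hb : ∀ i, b i = p ^ (i : ℕ))
    {ε : ℤ} (hε : ε = 1 ∨ ε = -1) (hp : p ^ d = (ε : R) * N) : Digits p N := by
  have hinj : Function.Injective (Int.cast : ℤ → R) := by
    intro u v huv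
    have h1 : (u - v) • b ⟨0, hd⟩ = 0 := by
      rw [hb]
      simp [huv]
    have h2 := congrArg (fun x => b.repr x ⟨0, hd⟩) h1
    simp only [map_smul, Module.Basis.repr_self, Finsupp.smul_single, smul_eq_mul, mul_one,
      Finsupp.single_eq_same, map_zero, Finsupp.coe_zero, Pi.zero_apply] at h2
    omega
  have hε2 : ε * ε = 1 := by rcases hε with rfl | rfl <;> norm_num
  have hεR : (ε : R) * ε = 1 := by exact_mod_cast congrArg (Int.cast : ℤ → R) hε2
  have hN0 : (N : R) ≠ 0 := by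
    intro h
    have h1 : ((N : ℤ) : R) = ((0 : ℤ) : R) := by simpa using h
    have := hinj h1
    omega
  have hp0 : p ≠ 0 := by
    rintro rfl
    rw [zero_pow (by omega)] at hp
    have h1 : (N : R) = 0 := by
      calc (N : R) = ((ε : R) * ε) * N := by rw [hεR, one_mul]
        _ = (ε : R) * ((ε : R) * N) := by ring
        _ = 0 := by rw [← hp, mul_zero]
    exact hN0 h1
  -- the element `N` is divisible by `p`
  have hpN : p ∣ (N : R) := by
    have h1 : (N : R) = ε * p ^ d := by rw [hp, ← mul_assoc, hεR, one_mul]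
    rw [h1]
    exact (dvd_pow_self p (by omega)).mul_left _
  obtain ⟨k, rfl⟩ : ∃ k, d = k + 1 := ⟨d - 1, by omega⟩
  refine ⟨hN, hp0, ?_, ?_⟩
  · intro x
    -- remove the higher coordinates
    have h1 : p ∣ x - ((b.repr x 0 : ℤ) : R) := by
      have h2 : x = ((b.repr x 0 : ℤ) : R) + ∑ i : Fin k, (b.repr x i.succ : R) * p ^ ((i : ℕ) + 1) := by
        conv_lhs => rw [← b.sum_repr x, Fin.sum_univ_succ]
        congr 1
        · rw [hb]; simp
        · refine Finset.sum_congr rfl fun i _ => ?_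
          rw [hb, zsmul_eq_mul]
          simp
      refine ⟨∑ i : Fin k, (b.repr x i.succ : R) * p ^ (i : ℕ), ?_⟩
      rw [Finset.mul_sum]
      have h3 : ∑ i : Fin k, p * ((b.repr x i.succ : R) * p ^ (i : ℕ)) =
          ∑ i : Fin k, (b.repr x i.succ : R) * p ^ ((i : ℕ) + 1) :=
        Finset.sum_congr rfl fun i _ => by ring
      rw [h3]
      linear_combination h2
    set u := b.repr x 0 with hu
    have hNz : (0 : ℤ) < N := by omega
    have h4 := Int.emod_nonneg u hNz.ne'
    have h5 := Int.emod_lt_of_pos u hNz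
    refine ⟨(u % N).toNat, by omega, ?_⟩
    have h6 : ((u % N).toNat : R) = ((u % N : ℤ) : R) := by
      rw [← Int.cast_natCast (R := R), Int.toNat_of_nonneg h4]
    have h7 : ((u : ℤ) : R) = (N : R) * ((u / N : ℤ) : R) + ((u % N : ℤ) : R) := by
      have := congrArg (Int.cast : ℤ → R) (Int.mul_ediv_add_emod u (N : ℤ)).symm
      rw [this]
      push_cast
      ring
    rw [h6]
    have h8 : x - ((u % N : ℤ) : R) = (x - ((u : ℤ) : R)) + (N : R) * ((u / N : ℤ) : R) := by
      rw [h7]; ring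
    rw [h8]
    exact dvd_add h1 (hpN.mul_right _)
  · -- uniqueness
    intro a ha a' ha' hdvd
    obtain ⟨y, hy⟩ := hdvd
    -- the zeroth coordinate of `p * y` is a multiple of `N`
    have h1 : b.repr (p * y) 0 = ε * N * b.repr y (Fin.last k) := by
      have h2 : p * y = ∑ i : Fin k, (b.repr y i.castSucc) • b i.succ +
          (ε * N * b.repr y (Fin.last k)) • b 0 := by
        conv_lhs => rw [← b.sum_repr y, Fin.sum_univ_castSucc]
        rw [mul_add, Finset.mul_sum]
        congr 1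
        · refine Finset.sum_congr rfl fun i _ => ?_
          rw [hb, hb, zsmul_eq_mul, zsmul_eq_mul]
          simp only [Fin.val_castSucc, Fin.val_succ, pow_succ]
          ring
        · rw [hb, hb, zsmul_eq_mul, zsmul_eq_mul]
          simp only [Fin.val_last, Fin.val_zero, pow_zero, mul_one]
          rw [pow_succ] at hp
          push_cast
          linear_combination (b.repr y (Fin.last k) : R) * hp
      rw [h2, map_add, map_sum, Finsupp.add_apply, Finsupp.finsetSum_apply]
      have h3 : ∀ i : Fin k, b.repr ((b.repr y i.castSucc) • b i.succ) 0 = 0 := by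
        intro i
        rw [map_smul, Module.Basis.repr_self, Finsupp.smul_apply, Finsupp.single_apply]
        simp [Fin.succ_ne_zero]
      rw [Finset.sum_congr rfl fun i _ => h3 i, Finset.sum_const_zero, zero_add, map_smul,
        Module.Basis.repr_self, Finsupp.smul_apply, Finsupp.single_apply]
      simp
    have h2 : b.repr ((a : R) - (a' : R)) 0 = (a : ℤ) - a' := by
      have h3 : ((a : R) - (a' : R)) = ((a : ℤ) - a') • b 0 := by
        rw [hb, zsmul_eq_mul]; simp
      rw [h3, map_smul, Module.Basis.repr_self, Finsupp.smul_apply, Finsupp.single_apply]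
      simp
    rw [hy, h1] at h2
    have h3 : (N : ℤ) ∣ (a : ℤ) - a' := by
      rw [← h2]
      exact ⟨ε * b.repr y (Fin.last k), by ring⟩
    have h5 : ((a : ℤ) - a') = 0 := by
      apply Int.eq_zero_of_abs_lt_dvd h3
      rw [abs_lt]
      constructor <;> omega
    omega

end digits

/-! ### The size functions of the two cases -/

section sizes

variable {R : Type*} [CommRing R] {d : ℕ}

lemma exists_coord_eq_nrm (b : Module.Basis (Fin d) ℤ R) {x : R} (hx : x ≠ 0) :
    ∃ i, nrm b x = (b.repr x i).natAbs ∧ b.repr x i ≠ 0 := by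
  have h1 := nrm_pos b hx
  have hd : 0 < d := by
    by_contra hcon
    have h0 : d = 0 := by omega
    subst h0
    have : nrm b x = 0 := by simp [nrm]
    omega
  have : Nonempty (Fin d) := ⟨⟨0, hd⟩⟩
  obtain ⟨i, -, hi⟩ := Finset.exists_mem_eq_sup (univ : Finset (Fin d)) univ_nonempty
    (fun i => (b.repr x i).natAbs)
  have hi' : nrm b x = (b.repr x i).natAbs := hi
  refine ⟨i, hi', ?_⟩
  intro h0
  rw [h0] at hi'
  simp only [Int.natAbs_zero] at hi'
  omega

lemma isSize_phiI {N : ℕ} (hN : 2 ≤ N) (b : Module.Basis (Fin 2) ℤ R) :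
    IsSize b N (phiI N b) 2 := by
  have hN1 : (1 : ℝ) < N := by exact_mod_cast (by omega : 1 < N)
  have hN2 : (2 : ℝ) ≤ N := by exact_mod_cast hN
  refine ⟨?_, by norm_num, ?_, ?_⟩
  · simp [phiI]
  · intro x hx
    obtain ⟨i, hi, -⟩ := exists_coord_eq_nrm b hx
    have hpos : (0 : ℝ) < nrm b x := by exact_mod_cast nrm_pos b hx
    have h1 : (nrm b x : ℝ) ^ 2 = (b.repr x i : ℝ) ^ 2 := by
      rw [hi, Nat.cast_natAbs, Int.cast_abs, sq_abs]
    have h2 : (nrm b x : ℝ) ^ 2 ≤ (b.repr x 0 : ℝ) ^ 2 + N * (b.repr x 1 : ℝ) ^ 2 := by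
      rw [h1]
      have h3 := sq_nonneg (b.repr x 0 : ℝ)
      have h4 := sq_nonneg (b.repr x 1 : ℝ)
      fin_cases i
      · simp only [Fin.zero_eta]
        nlinarith
      · simp only [Fin.mk_one]
        nlinarith
    have h3 : ((2 : ℕ) : ℝ) * Real.logb N (nrm b x) = Real.logb N ((nrm b x : ℝ) ^ 2) := by
      rw [Real.logb_pow]
    rw [h3]
    exact Real.logb_le_logb_of_le hN1 (by positivity) h2
  · intro x hx
    have hpos : (0 : ℝ) < nrm b x := by exact_mod_cast nrm_pos b hx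
    have hc : ∀ i, (b.repr x i : ℝ) ^ 2 ≤ (nrm b x : ℝ) ^ 2 := by
      intro i
      have h1 : ((b.repr x i).natAbs : ℝ) ≤ nrm b x := by exact_mod_cast coord_le b x i
      have h2 : ((b.repr x i).natAbs : ℝ) ^ 2 = (b.repr x i : ℝ) ^ 2 := by
        rw [Nat.cast_natAbs, Int.cast_abs, sq_abs]
      rw [← h2]
      exact pow_le_pow_left₀ (Nat.cast_nonneg _) h1 2
    have h0 := hc 0
    have h1 := hc 1
    have h2 : (b.repr x 0 : ℝ) ^ 2 + N * (b.repr x 1 : ℝ) ^ 2 ≤ (N * nrm b x : ℝ) ^ 2 := by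
      rw [mul_pow]
      have h3 : (N : ℝ) * (b.repr x 1 : ℝ) ^ 2 ≤ N * (nrm b x : ℝ) ^ 2 :=
        mul_le_mul_of_nonneg_left h1 (by linarith)
      have h4 : (0 : ℝ) ≤ (nrm b x : ℝ) ^ 2 := sq_nonneg _
      have h5 : (1 + N : ℝ) ≤ (N : ℝ) ^ 2 := by nlinarith
      nlinarith [mul_le_mul_of_nonneg_right h5 h4]
    have hpos' : (0 : ℝ) < (b.repr x 0 : ℝ) ^ 2 + N * (b.repr x 1 : ℝ) ^ 2 := by
      obtain ⟨i, -, hi⟩ := exists_coord_eq_nrm b hx
      have hi' : (0 : ℝ) < (b.repr x i : ℝ) ^ 2 := by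
        have : (b.repr x i : ℝ) ≠ 0 := by exact_mod_cast hi
        positivity
      have h3 := sq_nonneg (b.repr x 0 : ℝ)
      have h4 := sq_nonneg (b.repr x 1 : ℝ)
      fin_cases i
      · simp only [Fin.zero_eta] at hi'
        nlinarith
      · simp only [Fin.mk_one] at hi'
        nlinarith
    have h3 : ((2 : ℕ) : ℝ) * Real.logb N (nrm b x) + 2 = Real.logb N ((N * nrm b x : ℝ) ^ 2) := by
      rw [Real.logb_pow, Real.logb_mul (by positivity) (by positivity),
        Real.logb_self_eq_one hN1]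
      push_cast
      ring
    rw [h3]
    exact Real.logb_le_logb_of_le hN1 hpos' h2

lemma isSize_phiII {N : ℕ} (hN : 2 ≤ N) (b : Module.Basis (Fin d) ℤ R) :
    IsSize b N (phiII N b) d := by
  have hN1 : (1 : ℝ) < N := by exact_mod_cast (by omega : 1 < N)
  refine ⟨?_, Nat.cast_nonneg _, ?_, ?_⟩
  · have : IsEmpty {i : Fin d // b.repr (0 : R) i ≠ 0} := ⟨fun i => i.2 (by simp)⟩
    unfold phiII
    exact Real.iSup_of_isEmpty _
  · intro x hx
    obtain ⟨i, hi, hi0⟩ := exists_coord_eq_nrm b hx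
    have h1 : (d * Real.logb N |(b.repr x i : ℝ)| + ((i : Fin d) : ℕ)) ≤ phiII N b x :=
      le_ciSup (f := fun i : {i : Fin d // b.repr x i ≠ 0} =>
        (d * Real.logb N |(b.repr x i.1 : ℝ)| + (i.1 : ℕ))) (Set.finite_range _).bddAbove ⟨i, hi0⟩
    refine le_trans ?_ h1
    have h2 : (nrm b x : ℝ) = |(b.repr x i : ℝ)| := by
      rw [hi, Nat.cast_natAbs, Int.cast_abs]
    rw [h2]
    have : (0 : ℝ) ≤ ((i : Fin d) : ℕ) := Nat.cast_nonneg _
    linarith
  · intro x hx
    obtain ⟨i, hi, hi0⟩ := exists_coord_eq_nrm b hx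
    have : Nonempty {i : Fin d // b.repr x i ≠ 0} := ⟨⟨i, hi0⟩⟩
    refine ciSup_le ?_
    rintro ⟨j, hj⟩
    have h1 : |(b.repr x j : ℝ)| ≤ nrm b x := by
      have := coord_le b x j
      rw [← Int.cast_abs, ← Nat.cast_natAbs]
      exact_mod_cast this
    have h2 : (0 : ℝ) < |(b.repr x j : ℝ)| := by
      rw [abs_pos]
      exact_mod_cast hj
    have h3 : Real.logb N |(b.repr x j : ℝ)| ≤ Real.logb N (nrm b x) :=
      Real.logb_le_logb_of_le hN1 h2 h1
    have h4 : ((j : ℕ) : ℝ) ≤ d := by exact_mod_cast j.2.le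
    have h5 := mul_le_mul_of_nonneg_left h3 (Nat.cast_nonneg (α := ℝ) d)
    simp only
    linarith

end sizes

/-! ### The hypotheses are satisfiable -/

/-- The hypotheses of case (i) hold for `ℤ[√-2]`, `N = 2`. -/
example : ∃ b : Module.Basis (Fin 2) ℤ (ℤ√(-2)),
    (∀ i, b i = (Zsqrtd.sqrtd : ℤ√(-2)) ^ (i : ℕ)) ∧
      (Zsqrtd.sqrtd : ℤ√(-2)) ^ 2 = -((2 : ℕ) : ℤ√(-2)) := by
  let e : (ℤ√(-2)) ≃ₗ[ℤ] (Fin 2 → ℤ) :=
    { toFun := fun x => ![x.re, x.im]
      invFun := fun v => ⟨v 0, v 1⟩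
      left_inv := fun x => rfl
      right_inv := fun v => by ext i; fin_cases i <;> rfl
      map_add' := fun x y => by ext i; fin_cases i <;> rfl
      map_smul' := fun k x => by ext i; fin_cases i <;> simp }
  refine ⟨Module.Basis.ofEquivFun e, ?_, ?_⟩
  · intro i
    rw [Module.Basis.coe_ofEquivFun]
    have he : ∀ v : Fin 2 → ℤ, e.symm v = ⟨v 0, v 1⟩ := fun v => rfl
    change e.symm (Pi.single i 1) = _
    rw [he]
    fin_cases i
    · ext <;> simp
    · ext <;> simp
  · rw [pow_two, Zsqrtd.dmuld]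
    simp

/-- The hypotheses of case (ii) hold for `ℤ`, `d = 1` and every `N ≥ 2`. -/
example (N : ℕ) : ∃ b : Module.Basis (Fin 1) ℤ ℤ,
    (∀ i, b i = (N : ℤ) ^ (i : ℕ)) ∧ (N : ℤ) ^ 1 = (N : ℤ) :=
  ⟨Module.Basis.singleton (Fin 1) ℤ, fun i => by fin_cases i; simp, pow_one _⟩

/-- In case (i) and in case (ii) the average `p`-adic complexity of the sequences of length `n`
is `n / 2 + O(1)`. -/
theorem result :
    (∀ (R : Type u) [CommRing R] [IsDomain R] (N : ℕ) (p : R) (b : Module.Basis (Fin 2) ℤ R),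
      2 ≤ N → (∀ i, b i = p ^ (i : ℕ)) → p ^ 2 = -(N : R) →
      ∃ C : ℝ, ∀ n : ℕ, |EFin N p (phiI N b) n - (n : ℝ) / 2| ≤ C) ∧
    (∀ (R : Type u) [CommRing R] [IsDomain R] (N d : ℕ) (p : R) (b : Module.Basis (Fin d) ℤ R),
      2 ≤ N → (∀ i, b i = p ^ (i : ℕ)) → p ^ d = (N : R) →
      ∃ C : ℝ, ∀ n : ℕ, |EFin N p (phiII N b) n - (n : ℝ) / 2| ≤ C) := by
  constructor
  · intro R _ _ N p b hN hb hp
    refine average (by norm_num) (isSize_phiI hN b) (digits_of_basis hN (by norm_num) hb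
      (ε := -1) (Or.inr rfl) ?_)
    rw [hp]
    simp
  · intro R _ _ N d p b hN hb hp
    have hd : 1 ≤ d := by
      by_contra hcon
      have h0 : d = 0 := by omega
      subst h0
      have h1 : (1 : R) = 0 := by
        rw [← b.sum_repr 1]
        simp
      exact one_ne_zero h1
    refine average hd (isSize_phiII hN b) (digits_of_basis hN hd hb (ε := 1) (Or.inl rfl) ?_)
    rw [hp]
    simp

end Pool.Agent.Results.MP_cc6759_lc.FiniteAverage
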